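import Pool.Agent.Helper84.OPC.Stmts

/-!
K5: the complete graph on five vertices is not planar (from the topological Radon theorem and the
extension of paths).
-/

set_option autoImplicit false

open Finset

namespace OPC

/-- positive part of the minimum over all triples -/
noncomputable def k5_d (x : Fin 5 → ℝ) : ℝ :=
  ∑ t ∈ (univ : Finset (Fin 5 × Fin 5 × Fin 5)).filter
    (fun t => t.1 ≠ t.2.1 ∧ t.1 ≠ t.2.2 ∧ t.2.1 ≠ t.2.2),
    max 0 (min (x t.1) (min (x t.2.1) (x t.2.2)))

lemma k5_d_continuous : Continuous k5_d := by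
  unfold k5_d
  apply continuous_finsetSum
  intro t _
  exact continuous_const.max ((continuous_apply _).min ((continuous_apply _).min
    (continuous_apply _)))

/-- the support -/
noncomputable def k5_s (x : Fin 5 → ℝ) : Finset (Fin 5) := univ.filter fun i => x i ≠ 0

lemma k5_mem (x : Fin 5 → ℝ) (i : Fin 5) : i ∈ k5_s x ↔ x i ≠ 0 := by
  simp [k5_s]

lemma k5_d_zero {x : Fin 5 → ℝ} (h : (k5_s x).card ≤ 2) : k5_d x = 0 := by
  unfold k5_d
  apply Finset.sum_eq_zero
  rintro ⟨a, b, c⟩ ht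
  rw [mem_filter] at ht
  obtain ⟨_, h1, h2, h3⟩ := ht
  simp only at h1 h2 h3 ⊢
  have hz : x a = 0 ∨ x b = 0 ∨ x c = 0 := by
    by_contra hcon
    push Not at hcon
    have : 2 < (k5_s x).card := Finset.two_lt_card.2 ⟨a, (k5_mem x a).2 hcon.1,
      b, (k5_mem x b).2 hcon.2.1, c, (k5_mem x c).2 hcon.2.2, h1, h2, h3⟩
    omega
  apply max_eq_left
  rcases hz with h0 | h0 | h0
  · exact (min_le_left _ _).trans h0.le
  · exact (min_le_right _ _).trans ((min_le_left _ _).trans h0.le)
  · exact (min_le_right _ _).trans ((min_le_right _ _).trans h0.le)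

lemma k5_d_card {x : Fin 5 → ℝ} (hx : ∀ i, 0 ≤ x i) (h : k5_d x = 0) : (k5_s x).card ≤ 2 := by
  by_contra hcon
  push Not at hcon
  obtain ⟨a, ha, b, hb, c, hc, h1, h2, h3⟩ := Finset.two_lt_card.1 hcon
  rw [k5_mem] at ha hb hc
  have ha' : 0 < x a := lt_of_le_of_ne (hx a) (Ne.symm ha)
  have hb' : 0 < x b := lt_of_le_of_ne (hx b) (Ne.symm hb)
  have hc' : 0 < x c := lt_of_le_of_ne (hx c) (Ne.symm hc)
  have hpos : 0 < k5_d x := by
    unfold k5_d
    apply Finset.sum_pos' (fun t _ => le_max_left _ _)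
    refine ⟨(a, b, c), ?_, ?_⟩
    · rw [mem_filter]
      exact ⟨mem_univ _, h1, h2, h3⟩
    · exact lt_max_of_lt_right (lt_min ha' (lt_min hb' hc'))
  exact hpos.ne' h

lemma k5_sort {s : Finset (Fin 5)} (h : s.card = 2) : ∃ i j, i < j ∧ s = {i, j} := by
  obtain ⟨i, j, hij, hs⟩ := Finset.card_eq_two.1 h
  rcases lt_or_gt_of_ne hij with h1 | h1
  · exact ⟨i, j, h1, hs⟩
  · exact ⟨j, i, h1, by rw [hs, Finset.pair_comm]⟩

theorem st_K5 (hR : ST_RAD) (hE : ST_EXT) : ST_K5 := by
  intro p A hA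
  obtain ⟨φ, hφ, _, hφA⟩ := hE 5 p A hA
  have hf : Continuous (fun x : Fin 5 → ℝ => ![(φ x).1, (φ x).2, k5_d x]) := by
    apply continuous_pi
    intro i
    fin_cases i
    · exact continuous_fst.comp hφ
    · exact continuous_snd.comp hφ
    · exact k5_d_continuous
  obtain ⟨x, y, hx, hy, hxy, hfe⟩ := hR 3 _ hf
  have e1 : (φ x).1 = (φ y).1 := congrFun hfe 0
  have e2 : (φ x).2 = (φ y).2 := congrFun hfe 1
  have e3 : k5_d x = k5_d y := congrFun hfe 2
  have hdis : Disjoint (k5_s x) (k5_s y) := by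
    rw [Finset.disjoint_left]
    intro i hi hi'
    rw [k5_mem] at hi hi'
    rcases hxy i with h | h
    · exact hi h
    · exact hi' h
  have hsum : (k5_s x).card + (k5_s y).card ≤ 5 := by
    rw [← card_union_of_disjoint hdis]
    exact (card_le_univ _).trans (by simp)
  have hboth : (k5_s x).card ≤ 2 ∧ (k5_s y).card ≤ 2 := by
    rcases Nat.lt_or_ge 2 (k5_s x).card with h1 | h1
    · have h2 : (k5_s y).card ≤ 2 := by omega
      exact ⟨k5_d_card hx.1 (by rw [e3, k5_d_zero h2]), h2⟩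
    · exact ⟨h1, k5_d_card hy.1 (by rw [← e3, k5_d_zero h1])⟩
  obtain ⟨s, hs1, hs2, hs3⟩ := Finset.exists_subsuperset_card_eq
    (s := k5_s x) (t := (k5_s y)ᶜ) (n := 2)
    (by
      intro i hi
      rw [mem_compl]
      exact Finset.disjoint_left.1 hdis hi) hboth.1
    (by rw [card_compl, Fintype.card_fin]; omega)
  obtain ⟨t, ht1, ht2, ht3⟩ := Finset.exists_subsuperset_card_eq
    (s := k5_s y) (t := sᶜ) (n := 2)
    (by
      intro i hi
      rw [mem_compl]
      intro hi'
      have := hs2 hi'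
      rw [mem_compl] at this
      exact this hi) hboth.2
    (by rw [card_compl, Fintype.card_fin, hs3]; omega)
  obtain ⟨i, j, hij, hs⟩ := k5_sort hs3
  obtain ⟨k, l, hkl, ht⟩ := k5_sort ht3
  have hst : ∀ u ∈ s, ∀ v ∈ t, u ≠ v := by
    intro u hu v hv huv
    have := ht2 hv
    rw [mem_compl] at this
    exact this (huv ▸ hu)
  have hi : i ∈ s := by rw [hs]; simp
  have hj : j ∈ s := by rw [hs]; simp
  have hk : k ∈ t := by rw [ht]; simp
  have hl : l ∈ t := by rw [ht]; simp
  refine ⟨i, j, k, l, hij, hkl, hst i hi k hk, hst i hi l hl, hst j hj k hk, hst j hj l hl,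
    φ x, ?_, ?_⟩
  · apply hφA i j hij x hx
    intro m hm1 hm2
    by_contra hcon
    have := hs1 ((k5_mem x m).2 hcon)
    rw [hs] at this
    simp only [mem_insert, mem_singleton] at this
    tauto
  · have : φ x = φ y := Prod.ext e1 e2
    rw [this]
    apply hφA k l hkl y hy
    intro m hm1 hm2
    by_contra hcon
    have := ht1 ((k5_mem y m).2 hcon)
    rw [ht] at this
    simp only [mem_insert, mem_singleton] at this
    tauto

end OPC
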